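import Mathlib

/-!
A left `N`-essential ring which is not right `N`-essential.

Basis `1, n, r, s, t, w` over a nonzero commutative ring `K`; the nonzero products of the basis
elements other than `1` are `n r = s`, `r r = t`, `t r = w`. The nucleus `N` consists of the
elements without `r`-coordinate. If `x` is not in `N`, then `n x` is a nonzero element of `N`,
whereas `r N ∩ N = 0`.
-/

set_option autoImplicit false

universe u

namespace Pool.Agent.Results.MP_0af3ab_al.LeftNotRight

/-- The associator `(x y) z - x (y z)`. -/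
def assoc {R : Type*} [NonAssocRing R] (x y z : R) : R := (x * y) * z - x * (y * z)

/-- `x` lies in the associative center (nucleus) `N(R)`. -/
def IsNuclear {R : Type*} [NonAssocRing R] (x : R) : Prop :=
  ∀ a b : R, assoc x a b = 0 ∧ assoc a x b = 0 ∧ assoc a b x = 0

/-- Left `N`-essential: `N(R) r ∩ N(R) ≠ 0` for every nonzero `r`. -/
def LeftNEssential (R : Type*) [NonAssocRing R] : Prop :=
  ∀ r : R, r ≠ 0 → ∃ x : R, IsNuclear x ∧ IsNuclear (x * r) ∧ x * r ≠ 0

/-- Right `N`-essential: `r N(R) ∩ N(R) ≠ 0` for every nonzero `r`. -/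
def RightNEssential (R : Type*) [NonAssocRing R] : Prop :=
  ∀ r : R, r ≠ 0 → ∃ x : R, IsNuclear x ∧ IsNuclear (r * x) ∧ r * x ≠ 0

/-- The six-dimensional algebra. -/
@[ext]
structure A (K : Type u) where
  /-- coordinate at `1` -/
  o : K
  /-- coordinate at `n` -/
  n : K
  /-- coordinate at `r` -/
  r : K
  /-- coordinate at `s = n r` -/
  s : K
  /-- coordinate at `t = r r` -/
  t : K
  /-- coordinate at `w = t r` -/
  w : K

namespace A

variable {K : Type u} [CommRing K]

instance : Zero (A K) := ⟨⟨0, 0, 0, 0, 0, 0⟩⟩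
instance : One (A K) := ⟨⟨1, 0, 0, 0, 0, 0⟩⟩
instance : Add (A K) :=
  ⟨fun x y => ⟨x.o + y.o, x.n + y.n, x.r + y.r, x.s + y.s, x.t + y.t, x.w + y.w⟩⟩
instance : Neg (A K) := ⟨fun x => ⟨-x.o, -x.n, -x.r, -x.s, -x.t, -x.w⟩⟩
instance : SMul K (A K) :=
  ⟨fun k x => ⟨k * x.o, k * x.n, k * x.r, k * x.s, k * x.t, k * x.w⟩⟩
instance : Mul (A K) :=
  ⟨fun x y => ⟨x.o * y.o, x.o * y.n + x.n * y.o, x.o * y.r + x.r * y.o,
    x.o * y.s + x.s * y.o + x.n * y.r,
    x.o * y.t + x.t * y.o + x.r * y.r,
    x.o * y.w + x.w * y.o + x.t * y.r⟩⟩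

lemma zero_def : (0 : A K) = ⟨0, 0, 0, 0, 0, 0⟩ := rfl
lemma one_def : (1 : A K) = ⟨1, 0, 0, 0, 0, 0⟩ := rfl
lemma add_def (x y : A K) :
    x + y = ⟨x.o + y.o, x.n + y.n, x.r + y.r, x.s + y.s, x.t + y.t, x.w + y.w⟩ := rfl
lemma neg_def (x : A K) : -x = ⟨-x.o, -x.n, -x.r, -x.s, -x.t, -x.w⟩ := rfl
lemma smul_def (k : K) (x : A K) :
    k • x = ⟨k * x.o, k * x.n, k * x.r, k * x.s, k * x.t, k * x.w⟩ := rfl
lemma mul_def (x y : A K) :
    x * y = ⟨x.o * y.o, x.o * y.n + x.n * y.o, x.o * y.r + x.r * y.o,
    x.o * y.s + x.s * y.o + x.n * y.r,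
    x.o * y.t + x.t * y.o + x.r * y.r,
    x.o * y.w + x.w * y.o + x.t * y.r⟩ := rfl

instance : NonAssocRing (A K) where
  add_assoc x y z := by simp only [add_def]; ext <;> ring
  zero_add x := by simp only [add_def, zero_def]; ext <;> ring
  add_zero x := by simp only [add_def, zero_def]; ext <;> ring
  nsmul := nsmulRec
  zsmul := zsmulRec
  add_comm x y := by simp only [add_def]; ext <;> ring
  neg_add_cancel x := by simp only [add_def, neg_def, zero_def]; ext <;> ring
  left_distrib x y z := by simp only [add_def, mul_def]; ext <;> ring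
  right_distrib x y z := by simp only [add_def, mul_def]; ext <;> ring
  zero_mul x := by simp only [zero_def, mul_def]; ext <;> ring
  mul_zero x := by simp only [zero_def, mul_def]; ext <;> ring
  one_mul x := by simp only [one_def, mul_def]; ext <;> ring
  mul_one x := by simp only [one_def, mul_def]; ext <;> ring

instance : Module K (A K) where
  one_smul x := by simp only [smul_def]; ext <;> ring
  mul_smul x y z := by simp only [smul_def]; ext <;> ring
  smul_zero x := by simp only [smul_def, zero_def]; ext <;> ring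
  smul_add x y z := by simp only [smul_def, add_def]; ext <;> ring
  add_smul x y z := by simp only [smul_def, add_def]; ext <;> ring
  zero_smul x := by simp only [smul_def, zero_def]; ext <;> ring

lemma sub_def (x y : A K) :
    x - y = ⟨x.o - y.o, x.n - y.n, x.r - y.r, x.s - y.s, x.t - y.t, x.w - y.w⟩ := by
  rw [sub_eq_add_neg, add_def, neg_def]
  ext <;> ring

lemma nuclear_iff (x : A K) : IsNuclear x ↔ x.r = 0 := by
  constructor
  · intro h
    have h1 := (h ⟨0, 0, 1, 0, 0, 0⟩ ⟨0, 0, 1, 0, 0, 0⟩).1
    rw [assoc, sub_def, zero_def] at h1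
    have h2 := congrArg A.w h1
    simp only [mul_def] at h2
    linear_combination h2
  · intro h1 y z
    refine ⟨?_, ?_, ?_⟩ <;>
    · rw [assoc, sub_def, zero_def]
      simp only [mul_def, h1]
      ext <;> ring

end A

/-- For every nonzero commutative ring `K` there is a unital `K`-algebra `R`, free of rank six as a
`K`-module, which is left `N`-essential but not right `N`-essential. -/
theorem result (K : Type u) [CommRing K] [Nontrivial K] :
    ∃ (R : Type u) (_ : NonAssocRing R) (_ : Module K R),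
      (∀ (k : K) (x y : R), (k • x) * y = k • (x * y) ∧ x * (k • y) = k • (x * y)) ∧
      Nonempty (Module.Basis (Fin 6) K R) ∧
      LeftNEssential R ∧ ¬ RightNEssential R := by
  refine ⟨A K, inferInstance, inferInstance, ?_, ?_, ?_, ?_⟩
  · intro k x y
    constructor <;>
    · simp only [A.mul_def, A.smul_def]
      ext <;> ring
  · let e : A K ≃ₗ[K] (Fin 6 → K) :=
      { toFun := fun x => ![x.o, x.n, x.r, x.s, x.t, x.w]
        invFun := fun f => ⟨f 0, f 1, f 2, f 3, f 4, f 5⟩
        map_add' := fun x y => by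
          ext i; fin_cases i <;> simp [A.add_def]
        map_smul' := fun k x => by
          ext i; fin_cases i <;> simp [A.smul_def]
        left_inv := fun x => by
          ext <;> simp
        right_inv := fun f => by
          ext i; fin_cases i <;> simp }
    exact ⟨Module.Basis.ofEquivFun e⟩
  · intro x hx
    by_cases h : x.r = 0
    · refine ⟨1, (A.nuclear_iff _).2 rfl, ?_, ?_⟩
      · rw [one_mul]
        exact (A.nuclear_iff _).2 h
      · rwa [one_mul]
    · refine ⟨⟨0, 1, 0, 0, 0, 0⟩, (A.nuclear_iff _).2 rfl, (A.nuclear_iff _).2 ?_, ?_⟩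
      · simp [A.mul_def]
      · intro h0
        have e1 := congrArg A.s h0
        simp [A.mul_def, A.zero_def] at e1
        exact h e1
  · intro h
    obtain ⟨x, hx, hrx, hne⟩ := h (⟨0, 0, 1, 0, 0, 0⟩ : A K) (fun h0 => by
      have := congrArg A.r h0
      simp [A.zero_def] at this)
    rw [A.nuclear_iff] at hx hrx
    apply hne
    simp only [A.mul_def] at hrx ⊢
    have ho : x.o = 0 := by linear_combination hrx
    rw [hx, ho, A.zero_def]
    ext <;> simp

end Pool.Agent.Results.MP_0af3ab_al.LeftNotRight
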